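import Mathlib
import Pool.Agent.Lib_MP_9dbe3a.AGro

/-!
# MP_9dbe3a_gt: growth of the cohomology with finite-dimensional coefficients

`Y` is the universal cover of `M`, `Γ` the fundamental group, `M = Y / Γ` (`Quo Γ Y`). `BNC a Y` says
that the curvature is in `[-a, 0]` (comparison inequalities for the midpoints) and that geodesics can
be prolonged; `FinVol Γ Y μ` that `Γ` acts freely, discretely and isometrically, with finite
covolume, for an invariant measure with uniform bounds for the volumes of the balls of each radius.

`X` is a simplicial complex, acyclic over `ℤ`, on which `Γ` acts freely with finitely many orbits of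
simplices. For a tame `M` this is the universal cover of a triangulation of a compact manifold with
interior `M`.

Suppose that for every finite list `L` of non-trivial elements `z` of `Γ`, each of which moves some
point of `Y` by less than `ε`, there are a field `F` and a finite-dimensional representation `A` of
`Γ` over `F` (which may depend on `L`) with `dim H^n(Γ, A) > ∑_{z ∈ L} dim A^z`, where `A^z` is the
space of the vectors fixed by `z` (`LargeCoh L n`). Then some compact subset of `M` cannot be homotoped to leave every
compact set.

For example, this holds if there are representations `A_j` of `Γ` with `dim A_j^z = o(dim A_j)` for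
every small `z`, and `dim H^n(Γ, A_j) ≥ c dim A_j` with `c > 0`.
-/

namespace Pool.Agent.Results.MP_9dbe3a_gt.CohomologyGrowth

open ThickThin SingerVS MeasureTheory

theorem result {Γ Y P : Type} [Group Γ] [MetricSpace Y] [Nonempty Y] [MulAction Γ Y]
    [MeasurableSpace Y] [BorelSpace Y] (μ : Measure Y) (a : ℝ) (hY : BNC a Y)
    (hΓ : FinVol Γ Y μ) [LinearOrder P] [MulAction Γ P] (X : Set (Finset P)) (hX : FreeCx Γ X)
    (hA : AcyX X) (ε : ℝ) (hε : 0 < ε) (n : ℕ)
    (hn : ∀ L : List Γ, (∀ z ∈ L, IsSmall Y ε z) → LargeCoh L n) :
    ∃ C : Set (Quo Γ Y), IsCompact C ∧ ¬ CanLeave C :=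
  growth_main hΓ hY hX hA hε n hn

end Pool.Agent.Results.MP_9dbe3a_gt.CohomologyGrowth
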