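import Mathlib
import Pool.Agent.Lib_MP_9dbe3a.GComm

/-!
# MP_9dbe3a_gt: the commuting graph of the small elements

`Y` is the universal cover of `M`, `Γ` the fundamental group, `M = Y / Γ` (`Quo Γ Y`). `BNC a Y` says
that the curvature is in `[-a, 0]` (comparison inequalities for the midpoints) and that geodesics can
be prolonged; `FinVol Γ Y μ` that `Γ` acts freely, discretely and isometrically, with finite
covolume, for an invariant measure with uniform bounds for the volumes of the balls of each radius.

If for some `ε > 0` no connected component of the graph of the small elements of `Γ` (the non-trivial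
elements which move some point by less than `ε`; the edges are the pairs of commuting elements) is
invariant under conjugation by `Γ`, then some compact subset of `M` cannot be homotoped to leave every
compact set.
-/

namespace Pool.Agent.Results.MP_9dbe3a_gt.CommutingGraph

open ThickThin MeasureTheory

theorem result {Γ Y : Type} [Group Γ] [Group.FG Γ] [MetricSpace Y] [Nonempty Y] [MulAction Γ Y]
    [MeasurableSpace Y] [BorelSpace Y] (μ : Measure Y) (a : ℝ) (hY : BNC a Y)
    (hΓ : FinVol Γ Y μ) (ε : ℝ) (hε : 0 < ε)
    (hc : ∀ s : Γ, IsSmall Y ε s → ∃ g : Γ, ¬ CommConn Y ε s (g * s * g⁻¹)) :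
    ∃ C : Set (Quo Γ Y), IsCompact C ∧ ¬ CanLeave C :=
  commuting_main hΓ hY hε hc

end Pool.Agent.Results.MP_9dbe3a_gt.CommutingGraph
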