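import Mathlib
import Pool.Agent.Lib_MP_9dbe3a.AL2

/-!
# MP_9dbe3a_gt: manifolds with a non-zero `ℓ²`-Betti number or Euler characteristic

`Y` is the universal cover of `M`, `Γ` the fundamental group, `M = Y / Γ` (`Quo Γ Y`). `BNC a Y` says
that the curvature is in `[-a, 0]` (comparison inequalities for the midpoints) and that geodesics can
be prolonged; `FinVol Γ Y μ` that `Γ` acts freely, discretely and isometrically, with finite
covolume, for an invariant measure with uniform bounds for the volumes of the balls of each radius.

`X` is a simplicial complex, acyclic over `ℤ`, on which `Γ` acts freely with finitely many orbits of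
simplices. For a tame `M` this is the universal cover of a triangulation of a compact manifold with
interior `M` (it is contractible as `Y` is). `bettiX Γ X k` are the `ℓ²`-Betti numbers and `chiX Γ X`
is the Euler characteristic of `X / Γ`, that is of `M`.

If some `ℓ²`-Betti number or the Euler characteristic is not zero, then some compact subset of `M`
cannot be homotoped to leave every compact set.
-/

namespace Pool.Agent.Results.MP_9dbe3a_gt.L2Betti

open ThickThin SingerVS MeasureTheory

theorem result {Γ Y P : Type} [Group Γ] [MetricSpace Y] [Nonempty Y] [MulAction Γ Y]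
    [MeasurableSpace Y] [BorelSpace Y] (μ : Measure Y) (a : ℝ) (hY : BNC a Y)
    (hΓ : FinVol Γ Y μ) [LinearOrder P] [MulAction Γ P] (X : Set (Finset P)) (hX : FreeCx Γ X)
    (hA : AcyX X) (hb : (∃ k, bettiX Γ X k ≠ 0) ∨ chiX Γ X ≠ 0) :
    ∃ C : Set (Quo Γ Y), IsCompact C ∧ ¬ CanLeave C :=
  l2_main hΓ hY hX hA hb

end Pool.Agent.Results.MP_9dbe3a_gt.L2Betti
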