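import Mathlib
import Pool.Agent.Lib_MP_9dbe3a.ALoc

/-!
# MP_9dbe3a_gt: cohomology with twisted coefficients

`Y` is the universal cover of `M`, `Γ` the fundamental group, `M = Y / Γ` (`Quo Γ Y`). `BNC a Y` says
that the curvature is in `[-a, 0]` (comparison inequalities for the midpoints) and that geodesics can
be prolonged; `FinVol Γ Y μ` that `Γ` acts freely, discretely and isometrically, with finite
covolume, for an invariant measure with uniform bounds for the volumes of the balls of each radius.

`X` is a simplicial complex, acyclic over `ℤ`, on which `Γ` acts freely with finitely many orbits of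
simplices. For a tame `M` this is the universal cover of a triangulation of a compact manifold with
interior `M`.

Let `A` be a `k`-linear representation of `Γ`, over a commutative ring `k` (no finiteness), on which
`z - 1` acts bijectively for every non-trivial `z` in `Γ` which moves some point of `Y` by less than
`ε`. If `H^n(Γ, A)` (Mathlib's `groupCohomology`; it is the cohomology of `M` with coefficients in the
local system `A`) is not zero for some `n`, then some compact subset of `M` cannot be homotoped to
leave every compact set.
-/

namespace Pool.Agent.Results.MP_9dbe3a_gt.LocalSystems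

open ThickThin SingerVS MeasureTheory

theorem result {Γ Y P k : Type} [Group Γ] [MetricSpace Y] [Nonempty Y] [MulAction Γ Y]
    [MeasurableSpace Y] [BorelSpace Y] (μ : Measure Y) (a : ℝ) (hY : BNC a Y)
    (hΓ : FinVol Γ Y μ) [LinearOrder P] [MulAction Γ P] (X : Set (Finset P)) (hX : FreeCx Γ X)
    (hA : AcyX X) [CommRing k] (A : Rep.{0} k Γ) (ε : ℝ) (hε : 0 < ε)
    (hz : ∀ z : Γ, IsSmall Y ε z → Function.Bijective fun v : A => A.ρ z v - v) (n : ℕ)
    (hn : ¬ Subsingleton (groupCohomology A n)) :
    ∃ C : Set (Quo Γ Y), IsCompact C ∧ ¬ CanLeave C :=
  loc_main hΓ hY hX hA A hε hz n hn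

end Pool.Agent.Results.MP_9dbe3a_gt.LocalSystems
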